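import Mathlib
import Pool.Agent.W722.Stk.Defs
import Pool.Agent.W722.Stk.Bridge
import Pool.Agent.Y499.Stek.Main
import Pool.Agent.Y499.Stek.Hemi
set_option autoImplicit false
open Set Filter Topology MeasureTheory
open scoped ENNReal Manifold ContDiff
open Pool.Agent.W722.Stk

/-!
# Large first Steklov eigenvalue under volume bounds

The question is whether there is a compact connected smooth manifold `M` of dimension 3, with
nonempty boundary, and a sequence of Riemannian metrics on `M` for which the volumes of `M` and of
`∂M` are bounded and the first nonzero Steklov eigenvalue tends to infinity. (Metrics `g / n²` do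
this trivially, the volume of the boundary tending to zero; here the metric on the boundary is
kept fixed.)

The answer is yes: every compact manifold of dimension 3 with connected boundary has such
metrics. The metric on the boundary can be prescribed and kept fixed, and the volume of `M` can
even be made to tend to zero.

The definitions are in `Pool/Agent/W722/Stk/Defs.lean`:

* `RMetric d Ω`: the smooth Riemannian metrics on the manifold with boundary `Ω` of dimension
  `d + 1`;
* `bdry d Ω`: the boundary of `Ω`;
* `IsVolume g μ`: `μ` is the Riemannian volume measure of `g`, `√(det g_ij) dy` in every chart;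
* `IsBdryVolume g ν`: `ν` is the Riemannian measure of the metric induced by `g` on the boundary,
  seen as a measure on `Ω` carried by the boundary;
* `sigma k g μ ν`: the Steklov eigenvalue `σ_k` by its variational characterisation (the minimum
  over the `(k+1)`-dimensional spaces of smooth functions, on which `u ↦ ∫_∂Ω u²` is positive
  definite, of the maximum of the Rayleigh quotient `∫_Ω |du|²_g dμ / ∫_∂Ω u² dν`).
-/

namespace Pool.Agent.Results.MP_441052_gt.SmallVolumeLargeSteklov

/-- First part: let `Ω` be a compact (Hausdorff) smooth manifold of dimension `d + 1 ≥ 3` whose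
boundary is connected (and nonempty) and `g0` any smooth Riemannian metric on `Ω`, with boundary
measure `ν`. Then `ν` is finite and nonzero and there are smooth Riemannian metrics `g n`, with volume measures
`μ n`, equal to `g0` in a neighbourhood of the boundary (so `ν` is their boundary measure as well),
whose total volumes tend to `0` and whose first nonzero Steklov eigenvalues tend to `∞`.

Second part, the question itself: there are a compact connected smooth manifold `M` of dimension 3
with nonempty boundary and smooth Riemannian metrics `g n` on it, which have the same boundary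
measure `ν`, of finite positive mass, whose total volumes tend to `0` and whose first nonzero Steklov
eigenvalues tend to `∞`. -/
theorem result :
    (∀ d : ℕ, 2 ≤ d → ∀ (Ω : Type*) [TopologicalSpace Ω]
      [ChartedSpace (EuclideanHalfSpace (d + 1)) Ω] [IsManifold (𝓡∂ (d + 1)) ∞ Ω]
      [CompactSpace Ω] [T2Space Ω] [MeasurableSpace Ω] [BorelSpace Ω],
      IsConnected (bdry d Ω) → ∀ g0 : RMetric d Ω,
      ∃ (ν : Measure Ω) (g : ℕ → RMetric d Ω) (μ : ℕ → Measure Ω),
        0 < ν univ ∧ ν univ < ⊤ ∧
        (∀ n, IsVolume (g n) (μ n) ∧ IsBdryVolume (g n) ν ∧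
          ∃ V : Set Ω, IsOpen V ∧ bdry d Ω ⊆ V ∧ ∀ x ∈ V, (g n).inner x = g0.inner x) ∧
        Tendsto (fun n => μ n univ) atTop (𝓝 0) ∧
        Tendsto (fun n => sigma 1 (g n) (μ n) ν) atTop (𝓝 ⊤)) ∧
    ∃ (M : Type) (_ : TopologicalSpace M) (_ : ChartedSpace (EuclideanHalfSpace (2 + 1)) M)
      (_ : IsManifold (𝓡∂ (2 + 1)) ∞ M) (_ : MeasurableSpace M) (_ : BorelSpace M),
      CompactSpace M ∧ T2Space M ∧ ConnectedSpace M ∧ (bdry 2 M).Nonempty ∧
      ∃ (ν : Measure M) (g : ℕ → RMetric 2 M) (μ : ℕ → Measure M),
        0 < ν univ ∧ ν univ < ⊤ ∧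
        (∀ n, IsVolume (g n) (μ n) ∧ IsBdryVolume (g n) ν) ∧
        Tendsto (fun n => μ n univ) atTop (𝓝 0) ∧
        Tendsto (fun n => sigma 1 (g n) (μ n) ν) atTop (𝓝 ⊤) := by
  refine ⟨fun d hd Ω _ _ _ _ _ _ _ hconn g0 => Pool.Agent.Y499.Stek.main d hd Ω hconn g0, ?_⟩
  have hB : IsConnected (bdry 2 (Pool.Agent.Y499.Stek.Hemi 2)) :=
    Pool.Agent.Y499.Stek.bdry_conn (d := 2) (by norm_num)
  let m : MeasurableSpace (Pool.Agent.Y499.Stek.Hemi 2) := borel _
  have hm : BorelSpace (Pool.Agent.Y499.Stek.Hemi 2) := ⟨rfl⟩
  refine ⟨Pool.Agent.Y499.Stek.Hemi 2, inferInstance, inferInstance, inferInstance, m, hm,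
    inferInstance, inferInstance, inferInstance, hB.nonempty, ?_⟩
  obtain ⟨ν, g, μ, hν0, hν, h, h0, h1⟩ := Pool.Agent.Y499.Stek.main 2 le_rfl
    (Pool.Agent.Y499.Stek.Hemi 2) hB (ofMan (Pool.Agent.Y499.Stek.round 2))
  exact ⟨ν, g, μ, hν0, hν, fun n => ⟨(h n).1, (h n).2.1⟩, h0, h1⟩

end Pool.Agent.Results.MP_441052_gt.SmallVolumeLargeSteklov
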